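import Mathlib
import Pool.Agent.R812.StrongD

/-!
# Products of strong d-spaces need not be strong d-spaces
-/

set_option autoImplicit false

open Set

namespace Pool.Agent.Results.MP_e2e219_gt.ProductFails

open Pool.Agent.R812.StrongD

/-- There is a countable strong d-space `X` such that `X × X`, and each power `X ^ I` with at least
two factors, is not a strong d-space. -/
theorem result : ∃ (X : Type) (_ : TopologicalSpace X), Countable X ∧ StrongDSpace X ∧
    ¬ StrongDSpace (X × X) ∧ ∀ I : Type, Nontrivial I → ¬ StrongDSpace (I → X) := by
  refine ⟨S, inferInstance, ?_, strongDSpace_S, not_strongDSpace_prod,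
    fun I _ => not_strongDSpace_pi I⟩
  let c : S → ℕ ⊕ ℕ ⊕ ℕ := fun x => match x with
    | S.fin n => Sum.inl n
    | S.top => Sum.inr (Sum.inl 0)
    | S.bot b => Sum.inr (Sum.inl (if b then 1 else 2))
    | S.mid q => Sum.inr (Sum.inr q)
  have hc : Function.Injective c := by
    intro x y h
    match x, y with
    | S.fin n, S.fin m =>
      have : n = m := by simpa [c] using h
      rw [this]
    | S.fin n, S.top => simp [c] at h
    | S.fin n, S.bot b => simp [c] at h
    | S.fin n, S.mid q => simp [c] at h
    | S.top, S.fin n => simp [c] at h
    | S.top, S.top => rfl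
    | S.top, S.bot b => cases b <;> simp [c] at h
    | S.top, S.mid q => simp [c] at h
    | S.bot b, S.fin n => simp [c] at h
    | S.bot b, S.top => cases b <;> simp [c] at h
    | S.bot b, S.bot b' => cases b <;> cases b' <;> simp [c] at h ⊢
    | S.bot b, S.mid q => simp [c] at h
    | S.mid q, S.fin n => simp [c] at h
    | S.mid q, S.top => simp [c] at h
    | S.mid q, S.bot b => simp [c] at h
    | S.mid q, S.mid q' =>
      have : q = q' := by simpa [c] using h
      rw [this]
  exact hc.countable

end Pool.Agent.Results.MP_e2e219_gt.ProductFails
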